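import Pool.Agent.Q3.LiouInj.Main

/-!
# MP_7a8bd8_nt: Liouville matrices kept Liouville by injective maps have dimension at least one
-/

open Set

namespace Pool.Agent.Results.MP_7a8bd8_nt.PositiveDimension

variable {m n : ℕ}

/-- The vector `A q - p` of `ℝᵐ`, for a real `m × n` matrix `A`, `q ∈ ℤⁿ`, `p ∈ ℤᵐ`. -/
def err (A : Fin m → Fin n → ℝ) (q : Fin n → ℤ) (p : Fin m → ℤ) : Fin m → ℝ :=
  fun i => ∑ j, A i j * (q j : ℝ) - (p i : ℝ)

/-- The supremum norm of an integer vector. -/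
noncomputable def inorm (q : Fin n → ℤ) : ℝ := ‖(fun j => (q j : ℝ) : Fin n → ℝ)‖

/-- Liouville matrices: `A q - p ≠ 0` for all `(q, p) ≠ (0, 0)`, and for every real `N > 0` there
are `p ∈ ℤᵐ`, `q ∈ ℤⁿ` with `‖q‖ > 1` and `‖A q - p‖ < ‖q‖ ^ (-N)` (supremum norms). -/
def IsLiouville (A : Fin m → Fin n → ℝ) : Prop :=
  (∀ (q : Fin n → ℤ) (p : Fin m → ℤ), (q ≠ 0 ∨ p ≠ 0) → err A q p ≠ 0) ∧
  ∀ N : ℝ, 0 < N → ∃ (p : Fin m → ℤ) (q : Fin n → ℤ), 1 < inorm q ∧ ‖err A q p‖ < inorm q ^ (-N)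

/-- The set `E(U, (f_k))` of Liouville matrices in `U` that every `f_k` sends to Liouville
matrices. -/
def ESet (U : Set (Fin m → Fin n → ℝ)) (f : ℕ → (Fin m → Fin n → ℝ) → (Fin m → Fin n → ℝ)) :
    Set (Fin m → Fin n → ℝ) := {A | A ∈ U ∧ IsLiouville A ∧ ∀ k, IsLiouville (f k A)}

/-- For all `m ≥ 1` and `n ≥ 2`, every non-empty open `U` and every sequence of injective
continuous maps `f_k : U → ℝ^{m × n}`, the set `E(U, (f_k))` has Hausdorff dimension at least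
one; in particular it is positive. -/
theorem result (hm : 1 ≤ m) (hn : 2 ≤ n) (U : Set (Fin m → Fin n → ℝ)) (hU : IsOpen U)
    (hne : U.Nonempty) (f : ℕ → (Fin m → Fin n → ℝ) → (Fin m → Fin n → ℝ))
    (hc : ∀ k, ContinuousOn (f k) U) (hi : ∀ k, InjOn (f k) U) :
    1 ≤ dimH (ESet U f) := by
  have h : ESet U f = Pool.Agent.Q3.LiouInj.ESet U f := rfl
  rw [h]
  exact Pool.Agent.Q3.LiouInj.one_le_dimH hm hn hU hne hc hi

end Pool.Agent.Results.MP_7a8bd8_nt.PositiveDimension
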